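import Pool.Agent.H260.CH.GG

/-!
# Assembly: Groeneboom's function and Chernoff's density
-/

set_option autoImplicit false

open Complex MeasureTheory Set Filter Topology Polynomial
open Pool.Agent.H140R2.FR (Ai)
open Pool.Agent.R748.CH

namespace Pool.Agent.H260.CH

theorem hDECAY : S_DECAY := t_DECAY t_AILOW
theorem hFDEF : S_FDEF := t_FDEF t_GROW
theorem hPH : S_PH := t_PH hDECAY hFDEF t_TR
theorem hLIMIT : S_LIMIT := t_LIMIT (t_POLY (t_CLOSE t_TR t_LEMA)) (t_GAUSS t_TR) (t_MID t_TR)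
theorem hSHIFT : S_SHIFT := t_SHIFT hDECAY
theorem hFAST : S_FAST := t_FAST hSHIFT hDECAY
theorem hTAIL : S_TAIL := t_TAIL hSHIFT (t_KERB t_AILOW) t_KERL t_TR hPH
theorem hGG : S_G := t_G t_TR hPH hFDEF hLIMIT t_ENT t_POS t_LEMA hFAST

theorem slc : ∃ c : ℝ, 0 < c ∧ (∀ t, 0 < fZ t) ∧ ContDiff ℝ 2 fZ ∧
      (∀ t, c ≤ -(iteratedDeriv 2 (fun s => Real.log (fZ s)) t)) ∧
      ConvexOn ℝ Set.univ (fun t => -Real.log (fZ t) - c / 2 * t ^ 2) :=
  t_FINAL t_TR hPH hTAIL hGG t_SCALE t_FIN

/-! ### integrability -/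

theorem ph0_int : Integrable ph0 := by
  have h1 := hPH.1.mom 0
  simp only [pow_zero, one_mul] at h1
  exact (integrable_norm_iff hPH.1.cont.aestronglyMeasurable).1 h1

theorem G_tendsto : Tendsto (RT ph0 0) atTop (𝓝 0) := by
  have h1 := Real.tendsto_integral_exp_smul_cocompact ph0
  have h2 : Tendsto (fun x : ℝ => -(x / (2 * Real.pi))) atTop (cocompact ℝ) := by
    exact (tendsto_neg_atTop_atBot.comp
      (tendsto_id.atTop_div_const (by positivity))).mono_right atBot_le_cocompact
  have h3 := h1.comp h2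
  have h4 : Tendsto (fun x => (Tr ph0 0 x).re) atTop (𝓝 (0 : ℂ).re) := by
    refine (Complex.continuous_re.tendsto 0).comp (h3.congr fun x => ?_)
    unfold Tr
    simp only [Function.comp]
    refine integral_congr_ae (ae_of_all _ fun v => ?_)
    simp only [pow_zero, one_mul]
    rw [Circle.smul_def, Real.fourierChar_apply, smul_eq_mul]
    congr 2
    push_cast
    field_simp
  exact h4

theorem G_decay : ∃ q C x0 : ℝ, 0 < q ∧ ∀ x, x0 ≤ x → RT ph0 0 x ≤ C * Real.exp (-(q * x)) := by
  have hd := fun j => (t_TR ph0 hPH.1 j).1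
  obtain ⟨hpos, hlc⟩ := hGG
  obtain ⟨x0, hx0⟩ : ∃ x0, RT ph0 1 x0 < 0 := by
    by_contra hall
    push Not at hall
    have hmono : Monotone (RT ph0 0) :=
      monotone_of_deriv_nonneg (fun x => (hd 0 x).differentiableAt) (fun x => by
        rw [(hd 0 x).deriv]
        exact hall x)
    have h1 : RT ph0 0 0 ≤ 0 := by
      refine ge_of_tendsto G_tendsto ?_
      filter_upwards [eventually_ge_atTop (0 : ℝ)] with x hx
      exact hmono hx
    exact absurd h1 (not_le.2 (hpos 0))
  set q : ℝ := -(RT ph0 1 x0 / RT ph0 0 x0) with hq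
  have hq0 : 0 < q := by
    rw [hq, neg_pos]
    exact div_neg_of_neg_of_pos hx0 (hpos x0)
  -- the logarithmic derivative decreases
  have hanti : Antitone (fun x => RT ph0 1 x / RT ph0 0 x) := by
    have hdd : ∀ x, HasDerivAt (fun x => RT ph0 1 x / RT ph0 0 x)
        ((RT ph0 2 x * RT ph0 0 x - RT ph0 1 x * RT ph0 1 x) / RT ph0 0 x ^ 2) x :=
      fun x => (hd 1 x).div (hd 0 x) (hpos x).ne'
    refine antitone_of_deriv_nonpos (fun x => (hdd x).differentiableAt) (fun x => ?_)
    rw [(hdd x).deriv]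
    refine div_nonpos_of_nonpos_of_nonneg ?_ (by positivity)
    have := hlc x
    nlinarith
  have hle : ∀ x, x0 ≤ x → RT ph0 1 x + q * RT ph0 0 x ≤ 0 := by
    intro x hx
    have h1 := hanti hx
    simp only at h1
    rw [div_le_iff₀ (hpos x)] at h1
    rw [hq]
    linarith
  have hE : ∀ x, HasDerivAt (fun x => Real.exp (q * x) * RT ph0 0 x)
      (Real.exp (q * x) * (RT ph0 1 x + q * RT ph0 0 x)) x := by
    intro x
    have h1 : HasDerivAt (fun x : ℝ => q * x) q x := by
      simpa using (hasDerivAt_id x).const_mul q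
    have h2 := (h1.exp).mul (hd 0 x)
    refine h2.congr_deriv ?_
    ring
  have hA : AntitoneOn (fun x => Real.exp (q * x) * RT ph0 0 x) (Ici x0) := by
    refine antitoneOn_of_deriv_nonpos (convex_Ici x0)
      (fun x _ => (hE x).continuousAt.continuousWithinAt)
      (fun x _ => (hE x).differentiableAt.differentiableWithinAt) (fun x hx => ?_)
    rw [interior_Ici] at hx
    rw [(hE x).deriv]
    exact mul_nonpos_of_nonneg_of_nonpos (Real.exp_pos _).le (hle x (le_of_lt hx))
  refine ⟨q, Real.exp (q * x0) * RT ph0 0 x0, x0, hq0, fun x hx => ?_⟩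
  have h1 := hA (mem_Ici.2 le_rfl) (mem_Ici.2 hx) hx
  simp only at h1
  calc RT ph0 0 x = (Real.exp (q * x) * RT ph0 0 x) * Real.exp (-(q * x)) := by
        rw [mul_right_comm, ← Real.exp_add]
        simp
    _ ≤ _ := mul_le_mul_of_nonneg_right h1 (Real.exp_pos _).le

theorem G_cont : Continuous (RT ph0 0) :=
  continuous_iff_continuousAt.2 fun x => ((t_TR ph0 hPH.1 0).1 x).continuousAt

theorem G_int : Integrable (RT ph0 0) := by
  obtain ⟨q, C, x0, hq, hC⟩ := G_decay
  obtain ⟨C', hC'⟩ := hFAST 1 0 zero_le_one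
  have hpos := hGG.1
  have h1 : IntegrableOn (RT ph0 0) (Iic 0) := by
    have h2 : IntegrableOn (fun x : ℝ => C' * Real.exp x) (Iic 0) :=
      (integrableOn_exp_Iic 0).const_mul C'
    refine Integrable.mono' h2 G_cont.aestronglyMeasurable.restrict (ae_of_all _ fun x => ?_)
    have := hC' x
    rw [one_mul] at this
    exact this
  have h3 : IntegrableOn (RT ph0 0) (Icc 0 (max 0 x0)) := G_cont.continuousOn.integrableOn_Icc
  have h4 : IntegrableOn (RT ph0 0) (Ioi (max 0 x0)) := by
    have h5 : IntegrableOn (fun x : ℝ => C * Real.exp (-q * x)) (Ioi (max 0 x0)) :=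
      (exp_neg_integrableOn_Ioi _ hq).const_mul C
    refine Integrable.mono' h5 G_cont.aestronglyMeasurable.restrict ?_
    filter_upwards [ae_restrict_mem measurableSet_Ioi] with x hx
    rw [Real.norm_eq_abs, abs_of_pos (hpos x), neg_mul]
    exact hC x (le_trans (le_max_right _ _) (le_of_lt hx))
  have h6 := (h1.union h3).union h4
  have h7 : (Iic 0 ∪ Icc 0 (max 0 x0)) ∪ Ioi (max 0 x0) = (univ : Set ℝ) := by
    ext x
    simp only [mem_union, mem_Iic, mem_Icc, mem_Ioi, mem_univ, iff_true]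
    rcases le_total x 0 with h | h
    · exact Or.inl (Or.inl h)
    · rcases le_or_gt x (max 0 x0) with h' | h'
      · exact Or.inl (Or.inr ⟨h, h'⟩)
      · exact Or.inr h'
  rw [h7, integrableOn_univ] at h6
  exact h6

end Pool.Agent.H260.CH
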