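import Pool.Agent.H260.CH.Fin

/-!
# The Fourier side: Groeneboom's function is characterised by its transform
-/

set_option autoImplicit false

open Complex MeasureTheory Set Filter Topology
open Pool.Agent.H140R2.FR (Ai)
open Pool.Agent.R748.CH

namespace Pool.Agent.H260.CH

theorem Tr_eq (x : ℝ) : Tr ph0 0 x = (RT ph0 0 x : ℂ) := (t_TR ph0 hPH.1 0).2.1 x

theorem fourier_ph0 (w : ℝ) : (FourierTransform.fourier ph0 : ℝ → ℂ) w =
    (RT ph0 0 (-(2 * Real.pi) * w) : ℂ) := by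
  rw [Real.fourier_real_eq_integral_exp_smul, ← Tr_eq]
  unfold Tr
  refine integral_congr_ae (ae_of_all _ fun v => ?_)
  simp only [pow_zero, one_mul, smul_eq_mul]
  congr 2
  push_cast
  ring

theorem G_fourier (l : ℝ) : ∫ x : ℝ, cexp (-(I * (l : ℂ) * (x : ℂ))) * (RT ph0 0 x : ℂ) =
    ((2 * Real.pi : ℝ) : ℂ) * ph0 l := by
  have hpi : (0 : ℝ) < 2 * Real.pi := by positivity
  have hF : (FourierTransform.fourier ph0 : ℝ → ℂ) = fun w => (RT ph0 0 (-(2 * Real.pi) * w) : ℂ) :=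
    funext fourier_ph0
  have hI : Integrable (FourierTransform.fourier ph0 : ℝ → ℂ) := by
    rw [hF]
    exact (G_int.comp_mul_left' (neg_ne_zero.2 hpi.ne')).ofReal
  have hinv := hPH.1.cont.fourierInv_fourier_eq ph0_int hI
  have h1 := congrFun hinv l
  rw [Real.fourierInv_eq', hF] at h1
  have h2 := MeasureTheory.Measure.integral_comp_mul_left
    (fun x : ℝ => cexp (-(I * (l : ℂ) * (x : ℂ))) * (RT ph0 0 x : ℂ)) (-(2 * Real.pi))
  have h3 : (∫ v : ℝ, cexp (((2 * Real.pi * inner ℝ v l : ℝ) : ℂ) * I) •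
      ((RT ph0 0 (-(2 * Real.pi) * v) : ℝ) : ℂ)) =
      ∫ v : ℝ, cexp (-(I * (l : ℂ) * ((-(2 * Real.pi) * v : ℝ) : ℂ))) *
        ((RT ph0 0 (-(2 * Real.pi) * v) : ℝ) : ℂ) := by
    refine integral_congr_ae (ae_of_all _ fun v => ?_)
    simp only [smul_eq_mul]
    congr 2
    have : inner ℝ v l = l * v := by simp
    rw [this]
    push_cast
    ring
  rw [h3, h2] at h1
  rw [← h1, abs_inv, abs_neg, abs_of_pos hpi, Complex.real_smul, ← mul_assoc,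
    ← Complex.ofReal_mul, mul_inv_cancel₀ hpi.ne', Complex.ofReal_one, one_mul]

/-- `g = Re gG` in terms of `G` -/
theorem gre (t : ℝ) : (gG t).re = (2 : ℝ) ^ ((2 : ℝ) / 3) / (2 * Real.pi) *
      RT ph0 0 (-((2 : ℝ) ^ ((1 : ℝ) / 3)) * t) := by
  rw [t_SCALE t, Tr_eq, ← Complex.ofReal_mul, Complex.ofReal_re, neg_mul]

theorem g_cont : Continuous (fun t => (gG t).re) := by
  have : (fun t => (gG t).re) = fun t => (2 : ℝ) ^ ((2 : ℝ) / 3) / (2 * Real.pi) *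
      RT ph0 0 (-((2 : ℝ) ^ ((1 : ℝ) / 3)) * t) := funext gre
  rw [this]
  exact continuous_const.mul (G_cont.comp (continuous_const.mul continuous_id))

theorem g_int : Integrable (fun t => (gG t).re) := by
  have : (fun t => (gG t).re) = fun t => (2 : ℝ) ^ ((2 : ℝ) / 3) / (2 * Real.pi) *
      RT ph0 0 (-((2 : ℝ) ^ ((1 : ℝ) / 3)) * t) := funext gre
  rw [this]
  refine (G_int.comp_mul_left' (neg_ne_zero.2 ?_)).const_mul _
  positivity

theorem g_fourier (l : ℝ) : ∫ s : ℝ, cexp (I * (l : ℂ) * (s : ℂ)) * (((gG s).re : ℝ) : ℂ) =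
    (((2 : ℝ) ^ ((1 : ℝ) / 3) : ℝ) : ℂ) /
      Ai (I * ((((2 : ℝ) ^ (-((1 : ℝ) / 3)) : ℝ) * l : ℝ) : ℂ)) := by
  have hki : (2 : ℝ) ^ (-((1 : ℝ) / 3)) = ((2 : ℝ) ^ ((1 : ℝ) / 3))⁻¹ :=
    Real.rpow_neg zero_le_two _
  have hk2 : (2 : ℝ) ^ ((2 : ℝ) / 3) = (2 : ℝ) ^ ((1 : ℝ) / 3) * (2 : ℝ) ^ ((1 : ℝ) / 3) := by
    rw [← Real.rpow_add zero_lt_two]; norm_num
  have hk0 : (0 : ℝ) < (2 : ℝ) ^ ((1 : ℝ) / 3) := Real.rpow_pos_of_pos zero_lt_two _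
  have hpi : (0 : ℝ) < 2 * Real.pi := by positivity
  have e0 : (fun s : ℝ => cexp (I * (l : ℂ) * (s : ℂ)) * (((gG s).re : ℝ) : ℂ)) =
      fun s : ℝ => cexp (I * (l : ℂ) * (s : ℂ)) * (((2 : ℝ) ^ ((2 : ℝ) / 3) / (2 * Real.pi) *
      RT ph0 0 (-((2 : ℝ) ^ ((1 : ℝ) / 3)) * s) : ℝ) : ℂ) := by
    funext s
    rw [gre s]
  rw [e0, hki, hk2]
  generalize (2 : ℝ) ^ ((1 : ℝ) / 3) = k at hk0 ⊢
  have h2 := MeasureTheory.Measure.integral_comp_mul_left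
    (fun x : ℝ => cexp (-(I * ((k⁻¹ * l : ℝ) : ℂ) * (x : ℂ))) * (RT ph0 0 x : ℂ)) (-k)
  rw [G_fourier, abs_inv, abs_neg, abs_of_pos hk0, Complex.real_smul] at h2
  have h3 : (∫ s : ℝ, cexp (I * (l : ℂ) * (s : ℂ)) *
      ((k * k / (2 * Real.pi) * RT ph0 0 (-k * s) : ℝ) : ℂ)) =
      ((k * k / (2 * Real.pi) : ℝ) : ℂ) *
      ∫ s : ℝ, cexp (-(I * ((k⁻¹ * l : ℝ) : ℂ) * ((-k * s : ℝ) : ℂ))) *
        (RT ph0 0 (-k * s) : ℂ) := by
    rw [← integral_const_mul]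
    refine integral_congr_ae (ae_of_all _ fun s => ?_)
    have hkc : (k : ℂ) ≠ 0 := by exact_mod_cast hk0.ne'
    have e1 : I * (l : ℂ) * (s : ℂ) = -(I * ((k⁻¹ * l : ℝ) : ℂ) * ((-k * s : ℝ) : ℂ)) := by
      push_cast
      field_simp
    simp only
    rw [e1]
    push_cast
    ring
  rw [h3, h2]
  unfold ph0
  have hkc : (k : ℂ) ≠ 0 := by exact_mod_cast hk0.ne'
  have hpc : (Real.pi : ℂ) ≠ 0 := by exact_mod_cast Real.pi_ne_zero
  rw [div_eq_mul_inv (k : ℂ)]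
  push_cast
  field_simp

/-- uniqueness of a continuous integrable function with given transform -/
theorem g_unique {g h : ℝ → ℝ} (hg : Continuous g) (hgi : Integrable g)
    (hh : Continuous h) (hhi : Integrable h)
    (he : ∀ l : ℝ, ∫ s : ℝ, cexp (I * (l : ℂ) * (s : ℂ)) * ((g s : ℝ) : ℂ) =
      ∫ s : ℝ, cexp (I * (l : ℂ) * (s : ℂ)) * ((h s : ℝ) : ℂ)) : g = h := by
  have hi : ∀ (f : ℝ → ℝ), Integrable f → ∀ l : ℝ,
      Integrable (fun s : ℝ => cexp (I * (l : ℂ) * (s : ℂ)) * ((f s : ℝ) : ℂ)) := by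
    intro f hf l
    refine (hf.ofReal (𝕜 := ℂ)).bdd_mul (c := 1) ?_ ?_
    · exact (by fun_prop : Continuous fun s : ℝ => cexp (I * (l : ℂ) * (s : ℂ))).aestronglyMeasurable
    · refine ae_of_all _ fun s => ?_
      have : I * (l : ℂ) * (s : ℂ) = ((l * s : ℝ) : ℂ) * I := by push_cast; ring
      rw [this, Complex.norm_exp_ofReal_mul_I]
  have h0 := eq_zero_of_Tr (φ := fun s => ((g s : ℝ) : ℂ) - ((h s : ℝ) : ℂ))
    (by fun_prop) ((hgi.ofReal (𝕜 := ℂ)).sub (hhi.ofReal (𝕜 := ℂ))) (fun x => by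
      unfold Tr
      have : (fun ω : ℝ => (I * (ω : ℂ)) ^ 0 * cexp (I * (ω : ℂ) * (x : ℂ)) *
          (((g ω : ℝ) : ℂ) - ((h ω : ℝ) : ℂ))) = fun ω : ℝ =>
          cexp (I * (x : ℂ) * (ω : ℂ)) * ((g ω : ℝ) : ℂ) -
          cexp (I * (x : ℂ) * (ω : ℂ)) * ((h ω : ℝ) : ℂ) := by
        funext ω
        rw [pow_zero, one_mul, mul_sub, mul_right_comm I (ω : ℂ) (x : ℂ)]
      rw [this, integral_sub (hi g hgi x) (hi h hhi x), he x, sub_self])
  funext s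
  have h1 := congrFun h0 s
  simp only [Pi.zero_apply, sub_eq_zero] at h1
  exact_mod_cast h1

end Pool.Agent.H260.CH
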