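import Pool.Agent.H260.CH.Had
import Pool.Graph.R_seed8.R748.CH.AILOW
import Pool.Graph.R_seed8.R748.CH.CLOSE
import Pool.Graph.R_seed8.R748.CH.DECAY
import Pool.Graph.R_seed8.R748.CH.ENT
import Pool.Graph.R_seed8.R748.CH.FAST
import Pool.Graph.R_seed8.R748.CH.FDEF
import Pool.Graph.R_seed8.R748.CH.FIN
import Pool.Graph.R_seed8.R748.CH.Final
import Pool.Graph.R_seed8.R748.CH.GAUSS
import Pool.Graph.R_seed8.R748.CH.GROW
import Pool.Graph.R_seed8.R748.CH.KERB
import Pool.Graph.R_seed8.R748.CH.KERL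
import Pool.Graph.R_seed8.R748.CH.LEMA
import Pool.Graph.R_seed8.R748.CH.LIMIT
import Pool.Graph.R_seed8.R748.CH.MID
import Pool.Graph.R_seed8.R748.CH.PH
import Pool.Graph.R_seed8.R748.CH.POLY
import Pool.Graph.R_seed8.R748.CH.POS
import Pool.Graph.R_seed8.R748.CH.SCALE
import Pool.Graph.R_seed8.R748.CH.SHIFT
import Pool.Graph.R_seed8.R748.CH.TAIL
import Pool.Graph.R_seed8.R748.CH.TR

/-!
# Positivity and strict log-concavity of the transform of `1 / Ai`
-/

set_option autoImplicit false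

open Complex MeasureTheory Set Filter Topology Polynomial
open Pool.Agent.H140R2.FR (Ai)
open Pool.Agent.R748.CH

namespace Pool.Agent.H260.CH

/-- a continuous integrable function with vanishing transform vanishes -/
theorem eq_zero_of_Tr {φ : ℝ → ℂ} (hc : Continuous φ) (hi : Integrable φ)
    (h : ∀ x : ℝ, Tr φ 0 x = 0) : φ = 0 := by
  have hz : (FourierTransform.fourier φ : ℝ → ℂ) = 0 := by
    funext w
    rw [Real.fourier_real_eq_integral_exp_smul]
    have := h (-(2 * Real.pi * w))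
    unfold Tr at this
    rw [Pi.zero_apply, ← this]
    refine integral_congr_ae (ae_of_all _ fun v => ?_)
    simp only [pow_zero, one_mul, smul_eq_mul]
    congr 2
    push_cast
    ring
  have h2 := hc.fourierInv_fourier_eq hi (by rw [hz]; exact integrable_zero _ _ _)
  rw [hz] at h2
  rw [← h2]
  funext w
  rw [Real.fourierInv_eq]
  simp

theorem exists_zero : ∃ a : ℝ, 0 < a ∧ Ai (-(a : ℂ)) = 0 := by
  obtain ⟨x, hx⟩ := Pool.Agent.H140R2.FR.T03.exists_real_zero
  have h0 : Ai (x : ℂ) = 0 := by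
    apply Complex.ext
    · exact hx
    · exact Pool.Agent.H140R2.FR.Ai_real x
  have hx0 : x < 0 := by
    by_contra hn
    push Not at hn
    exact Pool.Agent.H140R2.FR.Ai_ne_zero (x : ℂ) (Or.inr (by simpa using hn)) h0
  refine ⟨-x, by linarith, ?_⟩
  push_cast
  rw [neg_neg]
  exact h0

theorem t_G (hTR : S_TR) (hPH : S_PH) (hF : S_FDEF) (hLIM : S_LIMIT) (hENT : S_ENT)
    (hPOS : S_POS) (hLEMA : S_LEMA) (hFAST : S_FAST) : S_G := by
  obtain ⟨a, ha, hAi⟩ := exists_zero
  obtain ⟨hM0, hPH1⟩ := hPH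
  obtain ⟨hM1, hdec, -, ⟨hA0, -⟩, hrel⟩ := hPH1 a ha hAi
  obtain ⟨hFd, hF0, -, hFsym, hFz, K, hK, hFg⟩ := hF a ha hAi
  obtain ⟨Q, hQ1, hQ2⟩ := exists_polys (Fa a) hFd hF0 hFsym hFz hK hFg
  obtain ⟨hnn, hlc, hmid⟩ := hLIM (Fa a) hFd.continuous hF0 ⟨Q, hQ1, hQ2⟩ hM1
  have hph : (fun ω : ℝ => (Fa a (I * (ω : ℂ)))⁻¹) = ph1 a := rfl
  rw [hph] at hnn hlc hmid
  have han := hENT (ph1 a) hM1.cont hdec
  have hne : ∃ x, RT (ph1 a) 0 x ≠ 0 := by
    by_contra hall
    push Not at hall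
    have hi : Integrable (ph1 a) := by
      have h1 := hM1.mom 0
      simp only [pow_zero, one_mul] at h1
      exact (integrable_norm_iff hM1.cont.aestronglyMeasurable).1 h1
    have hz := eq_zero_of_Tr hM1.cont hi (fun x => by
      rw [(hTR (ph1 a) hM1 0).2.1 x, hall x, Complex.ofReal_zero])
    have h1 : ph1 a 0 = 0 := by rw [hz]; rfl
    have h2 : ph1 a 0 = 1 := by
      unfold ph1
      rw [Complex.ofReal_zero, mul_zero, hF0, inv_one]
    rw [h2] at h1
    exact one_ne_zero h1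
  have hpos := hPOS _ han hnn hmid hne
  -- names
  set G : ℕ → ℝ → ℝ := fun j => RT ph0 j with hG
  set h : ℕ → ℝ → ℝ := fun j => RT (ph1 a) j with hh
  have hGd : ∀ j x, HasDerivAt (G j) (G (j + 1) x) x := fun j => (hTR ph0 hM0 j).1
  have hhd : ∀ j x, HasDerivAt (h j) (h (j + 1) x) x := fun j => (hTR (ph1 a) hM1 j).1
  set κ : ℝ := a / (Ai 0).re with hκ
  have hκ0 : 0 < κ := div_pos ha hA0
  have hGh : ∀ j x, a * G j x + G (j + 1) x = κ * h j x := by
    intro j x
    have h1 : h j x = (Ai 0).re * (G j x + G (j + 1) x / a) := hrel j x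
    rw [h1, hκ]
    field_simp
  have hexp : ∀ x : ℝ, HasDerivAt (fun x : ℝ => Real.exp (a * x)) (a * Real.exp (a * x)) x := by
    intro x
    have h1 : HasDerivAt (fun x : ℝ => a * x) a x := by
      simpa using (hasDerivAt_id x).const_mul a
    have h2 := h1.exp
    rw [mul_comm]
    exact h2
  have hM : ∀ x, HasDerivAt (fun x => Real.exp (a * x) * G 0 x)
      (Real.exp (a * x) * (κ * h 0 x)) x := by
    intro x
    have h1 := (hexp x).mul (hGd 0 x)
    refine h1.congr_deriv ?_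
    rw [← hGh 0 x]
    ring
  have hm : ∀ x, HasDerivAt (fun x => Real.exp (a * x) * (κ * h 0 x))
      (Real.exp (a * x) * (κ * (a * h 0 x + h 1 x))) x := by
    intro x
    have h1 := (hexp x).mul ((hhd 0 x).const_mul κ)
    refine h1.congr_deriv ?_
    ring
  have hm1 : ∀ x, HasDerivAt (fun x => Real.exp (a * x) * (κ * (a * h 0 x + h 1 x)))
      (Real.exp (a * x) * (κ * (a ^ 2 * h 0 x + 2 * a * h 1 x + h 2 x))) x := by
    intro x
    have h1 := (hexp x).mul ((((hhd 0 x).const_mul a).add (hhd 1 x)).const_mul κ)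
    refine h1.congr_deriv ?_
    simp only [Pi.add_apply]
    ring
  have hmpos : ∀ x, 0 < Real.exp (a * x) * (κ * h 0 x) := fun x => by
    have := hpos x
    have h2 : 0 < h 0 x := this
    positivity
  have hmlc : ∀ x, (Real.exp (a * x) * (κ * h 0 x)) *
      (Real.exp (a * x) * (κ * (a ^ 2 * h 0 x + 2 * a * h 1 x + h 2 x))) ≤
      (Real.exp (a * x) * (κ * (a * h 0 x + h 1 x))) ^ 2 := by
    intro x
    have h1 : h 0 x * h 2 x ≤ h 1 x ^ 2 := hlc x
    have h2 : 0 < (Real.exp (a * x) * κ) ^ 2 := by positivity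
    nlinarith [mul_le_mul_of_nonneg_left h1 h2.le]
  have hbnd : ∀ (l : ℝ) (j : ℕ), 0 ≤ l →
      Tendsto (fun x => Real.exp (a * x) * (Real.exp (-(l * x)) * G j x)) atBot (𝓝 0) := by
    intro l j hl
    obtain ⟨C, hC⟩ := hFAST l j hl
    have h1 : Tendsto (fun x : ℝ => |C| * Real.exp (a * x)) atBot (𝓝 (|C| * 0)) := by
      refine Tendsto.const_mul _ (Real.tendsto_exp_atBot.comp ?_)
      exact tendsto_id.const_mul_atBot ha
    rw [mul_zero] at h1
    refine squeeze_zero_norm (fun x => ?_) h1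
    rw [norm_mul, norm_mul, Real.norm_eq_abs, Real.norm_eq_abs, Real.norm_eq_abs, Real.abs_exp,
      Real.abs_exp]
    have h2 : Real.exp (-(l * x)) * |G j x| ≤ |C| := by
      calc Real.exp (-(l * x)) * |G j x| ≤ Real.exp (-(l * x)) * (C * Real.exp (l * x)) :=
            mul_le_mul_of_nonneg_left (hC x) (Real.exp_pos _).le
        _ = C * (Real.exp (-(l * x)) * Real.exp (l * x)) := by ring
        _ = C := by rw [← Real.exp_add]; simp
        _ ≤ |C| := le_abs_self C
    calc Real.exp (a * x) * (Real.exp (-(l * x)) * |G j x|) ≤ Real.exp (a * x) * |C| := by gcongr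
      _ = |C| * Real.exp (a * x) := mul_comm _ _
  have hlim : Tendsto (fun x => Real.exp (a * x) * G 0 x) atBot (𝓝 0) := by
    have h1 := hbnd 0 0 le_rfl
    simpa using h1
  obtain ⟨hMpos, -, hstrict⟩ := hLEMA _ _ _ _ hM hm hm1 hmpos hmlc hlim
  have hst := hstrict (fun l hl => by
    have h1 := ((hbnd l 0 hl.le).const_mul a).add (hbnd l 1 hl.le)
    rw [mul_zero, add_zero] at h1
    refine h1.congr fun x => ?_
    rw [← hGh 0 x]
    ring)
  refine ⟨fun x => ?_, fun x => ?_⟩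
  · have h1 := hMpos x
    exact (mul_pos_iff_of_pos_left (Real.exp_pos _)).1 h1
  · have h1 := hst x
    have h0 : κ * h 0 x = a * G 0 x + G 1 x := (hGh 0 x).symm
    have h2 : κ * (a * h 0 x + h 1 x) = a ^ 2 * G 0 x + 2 * a * G 1 x + G 2 x := by
      have e0 := hGh 0 x
      have e1 := hGh 1 x
      simp only [zero_add] at e0
      norm_num at e1
      linear_combination (-a) * e0 - e1
    rw [h0, h2] at h1
    have h3 : 0 < Real.exp (a * x) ^ 2 := by positivity
    have h4 : Real.exp (a * x) ^ 2 * (G 0 x * G 2 x) < Real.exp (a * x) ^ 2 * (G 1 x ^ 2) := by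
      nlinarith
    exact lt_of_mul_lt_mul_left h4 h3.le

end Pool.Agent.H260.CH
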