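import Pool.Graph.R_pool_sql_team_seeded_3dad9d7b.NH98.RT.Had

/-!
# Real entire functions of order at most `3/2` with real zeros are limits of real rooted polynomials

The zeros in a disc are divided out, the quotient is estimated with the theorem of Borel and
Carathéodory.
-/

set_option autoImplicit false

open Complex Filter Topology Set Metric Polynomial

namespace Pool.Agent.H260.CH

theorem pow_sub_pow_norm {a b : ℂ} {M : ℝ} (hM : 1 ≤ M) (ha : ‖a‖ ≤ M) (hb : ‖b‖ ≤ M) (N : ℕ) :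
    ‖a ^ N - b ^ N‖ ≤ N * (M ^ N * ‖a - b‖) := by
  induction N with
  | zero => simp
  | succ n ih =>
    have e : a ^ (n + 1) - b ^ (n + 1) = a * (a ^ n - b ^ n) + (a - b) * b ^ n := by ring
    have hM0 : 0 ≤ M := by linarith
    have hMn : 0 ≤ M ^ n := by positivity
    rw [e]
    calc ‖a * (a ^ n - b ^ n) + (a - b) * b ^ n‖
        ≤ ‖a * (a ^ n - b ^ n)‖ + ‖(a - b) * b ^ n‖ := norm_add_le _ _
      _ = ‖a‖ * ‖a ^ n - b ^ n‖ + ‖a - b‖ * ‖b‖ ^ n := by rw [norm_mul, norm_mul, norm_pow]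
      _ ≤ M * (n * (M ^ n * ‖a - b‖)) + ‖a - b‖ * M ^ n := by gcongr
      _ ≤ M * (n * (M ^ n * ‖a - b‖)) + ‖a - b‖ * (M ^ n * M) := by
          have : M ^ n ≤ M ^ n * M := le_mul_of_one_le_right hMn hM
          gcongr
      _ = ((n + 1 : ℕ) : ℝ) * (M ^ (n + 1) * ‖a - b‖) := by push_cast; ring

theorem exp_approx (w : ℂ) (N : ℕ) (hN : ‖w‖ ≤ N) (hN0 : 0 < N) :
    ‖(1 + w / N) ^ N - cexp w‖ ≤ Real.exp ‖w‖ * ‖w‖ ^ 2 / N := by
  have hN1 : (0 : ℝ) < N := by exact_mod_cast hN0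
  have hNc : (N : ℂ) ≠ 0 := by exact_mod_cast hN0.ne'
  have hx : ‖w / N‖ = ‖w‖ / N := by rw [norm_div, Complex.norm_natCast]
  have hx1 : ‖w / N‖ ≤ 1 := by rw [hx, div_le_one hN1]; exact hN
  have hM : 1 ≤ Real.exp (‖w‖ / N) := Real.one_le_exp (by positivity)
  have ha : ‖1 + w / N‖ ≤ Real.exp (‖w‖ / N) := by
    refine (norm_add_le _ _).trans ?_
    rw [norm_one, hx, add_comm]
    exact Real.add_one_le_exp _
  have hb : ‖cexp (w / N)‖ ≤ Real.exp (‖w‖ / N) := by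
    refine (Complex.norm_exp_le_exp_norm _).trans ?_
    rw [hx]
  have h := pow_sub_pow_norm hM ha hb N
  have e1 : cexp (w / N) ^ N = cexp w := by
    rw [← Complex.exp_nat_mul]
    congr 1
    field_simp
  have e2 : Real.exp (‖w‖ / N) ^ N = Real.exp ‖w‖ := by
    rw [← Real.exp_nat_mul]
    congr 1
    field_simp
  have e3 : ‖1 + w / N - cexp (w / N)‖ ≤ (‖w‖ / N) ^ 2 := by
    have h5 : 1 + w / N - cexp (w / N) = -(cexp (w / N) - 1 - w / N) := by ring
    rw [h5, norm_neg, ← hx]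
    exact Complex.norm_exp_sub_one_sub_id_le hx1
  rw [e1, e2] at h
  refine h.trans ?_
  calc (N : ℝ) * (Real.exp ‖w‖ * ‖1 + w / N - cexp (w / N)‖)
      ≤ N * (Real.exp ‖w‖ * (‖w‖ / N) ^ 2) := by gcongr
    _ = Real.exp ‖w‖ * ‖w‖ ^ 2 / N := by field_simp

/-- second order estimate of the logarithm of a function without zeros in a disc -/
theorem log_second {g : ℂ → ℂ} {R M : ℝ} (hR : 0 < R) (hM : 0 < M) (hd : Differentiable ℂ g)
    (h1 : g 0 = 1) (hne : ∀ z ∈ ball (0 : ℂ) R, g z ≠ 0)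
    (hb : ∀ z ∈ ball (0 : ℂ) R, ‖g z‖ ≤ Real.exp M) (z : ℂ) (hz : ‖z‖ < R / 2) :
    ∃ e : ℂ, ‖e‖ ≤ 16 * M * (‖z‖ / R) ^ 2 ∧ g z = cexp (deriv g 0 * z + e) := by
  obtain ⟨φ, hφd, hφ0, hexp⟩ := Pool.Agent.NH98.RT.Had.exists_log hR hd hne
  rw [h1] at hexp
  have h0R : (0 : ℂ) ∈ ball (0 : ℂ) R := mem_ball_self hR
  have hzR : z ∈ ball (0 : ℂ) R := by rw [mem_ball_zero_iff]; linarith [norm_nonneg z]
  have hmaps : MapsTo φ (ball 0 R) {z | z.re ≤ M} := by
    intro w hw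
    show (φ w).re ≤ M
    have h2 := hb w hw
    rw [hexp w hw, one_mul, Complex.norm_exp] at h2
    exact Real.exp_le_exp.1 h2
  have hbc : ∀ z, ‖z‖ < R / 2 → ‖φ z‖ ≤ 2 * M := by
    intro z hz
    have hzR : z ∈ ball (0:ℂ) R := by rw [mem_ball_zero_iff]; linarith [norm_nonneg z]
    have h1 := borelCaratheodory_zero hM hφd hmaps hR hzR hφ0
    refine h1.trans ?_
    rw [div_le_iff₀ (by linarith)]
    nlinarith [norm_nonneg z]
  have hφat : DifferentiableAt ℂ φ 0 := (hφd 0 h0R).differentiableAt (isOpen_ball.mem_nhds h0R)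
  have ht : deriv g 0 = deriv φ 0 := by
    have e1 : g =ᶠ[𝓝 0] fun z => cexp (φ z) := by
      filter_upwards [isOpen_ball.mem_nhds h0R] with w hw
      rw [hexp w hw, one_mul]
    rw [e1.deriv_eq]
    have h3 := hφat.hasDerivAt.cexp
    rw [h3.deriv, hφ0, Complex.exp_zero, one_mul]
  set t := deriv g 0 with htdef
  have hφ' : HasDerivAt φ t 0 := by rw [ht]; exact hφat.hasDerivAt
  have hR2 : 0 < R / 2 := by linarith
  have hmapsc : MapsTo φ (ball 0 (R / 2)) (closedBall (φ 0) (2 * M)) := by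
    intro w hw
    rw [mem_ball_zero_iff] at hw
    rw [hφ0, mem_closedBall_zero_iff]
    exact hbc w hw
  have htb : ‖t‖ ≤ 2 * M / (R / 2) := by
    have h9 := Complex.norm_deriv_le_div_of_mapsTo_ball
      (hφd.mono (ball_subset_ball (by linarith))) hmapsc hR2
    rwa [hφ'.deriv] at h9
  set f₂ : ℂ → ℂ := fun w => φ w - t * w with hf₂
  have hf20 : f₂ 0 = 0 := by simp [hf₂, hφ0]
  have hmaps2 : MapsTo f₂ (ball 0 (R / 2)) (closedBall (f₂ 0) (4 * M)) := by
    intro w hw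
    rw [mem_ball_zero_iff] at hw
    rw [hf20, mem_closedBall_zero_iff]
    calc ‖φ w - t * w‖ ≤ ‖φ w‖ + ‖t * w‖ := norm_sub_le _ _
      _ ≤ 2 * M + 2 * M / (R / 2) * (R / 2) := by
          rw [norm_mul]
          apply add_le_add (hbc w hw)
          exact mul_le_mul htb hw.le (norm_nonneg _) (by positivity)
      _ = 4 * M := by field_simp; ring
  have hlo : (f₂ · - f₂ 0) =o[𝓝 0] (fun w ↦ ‖w - 0‖ ^ 1) := by
    have h1 := hφ'.isLittleO.norm_right
    have e1 : (fun x => φ x - φ 0 - (x - 0) • t) = (f₂ · - f₂ 0) := by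
      funext x
      simp only [hf₂, smul_eq_mul, sub_zero, mul_zero]
      ring
    rw [e1] at h1
    simpa using h1
  have h4 := Complex.dist_le_mul_div_pow_of_mapsTo_ball_of_isLittleO (n := 1) (f := f₂)
    ((hφd.mono (ball_subset_ball (by linarith))).sub
      ((differentiable_const t).mul differentiable_id).differentiableOn) hmaps2 hlo
    (mem_ball_zero_iff.2 hz)
  rw [hf20, dist_zero_right, dist_zero_right] at h4
  refine ⟨f₂ z, h4.trans (le_of_eq ?_), ?_⟩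
  · have h6 : ‖z‖ / (R / 2) = 2 * (‖z‖ / R) := by field_simp
    rw [h6]
    ring
  · rw [hexp z hzR, one_mul]
    congr 1
    simp only [hf₂]
    ring

/-- the real rooted polynomial `∏ (1 - z/a)^m(a)` -/
noncomputable def PP (S : Finset ℂ) (m : ℂ → ℕ) : ℂ[X] := ∏ a ∈ S, (1 - C a⁻¹ * X) ^ m a

theorem PP_eval (S : Finset ℂ) (m : ℂ → ℕ) (z : ℂ) :
    (PP S m).eval z = ∏ a ∈ S, (1 - z / a) ^ m a := by
  rw [PP, eval_prod]
  refine Finset.prod_congr rfl fun a _ => ?_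
  simp only [eval_pow, eval_sub, eval_one, eval_mul, eval_C, eval_X]
  rw [div_eq_inv_mul]

theorem PP_root (S : Finset ℂ) (m : ℂ → ℕ) (hS : ∀ a ∈ S, a.im = 0) (w : ℂ)
    (hw : (PP S m).eval w = 0) : w.im = 0 := by
  rw [PP_eval, Finset.prod_eq_zero_iff] at hw
  obtain ⟨a, ha, h⟩ := hw
  have hm : m a ≠ 0 := by
    intro h0
    rw [h0, pow_zero] at h
    exact one_ne_zero h
  have h2 : 1 - w / a = 0 := (pow_eq_zero_iff hm).1 h
  have ha0 : a ≠ 0 := by
    rintro rfl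
    simp at h2
  rw [sub_eq_zero, eq_comm, div_eq_one_iff_eq ha0] at h2
  rw [h2]
  exact hS a ha

/-- the factorisation for one radius -/
theorem one_radius {F : ℂ → ℂ} (hF : Differentiable ℂ F) (h0 : F 0 = 1)
    (hsym : ∀ z, F ((starRingEnd ℂ) z) = (starRingEnd ℂ) (F z)) (hz : ∀ z, F z = 0 → z.im = 0)
    {K : ℝ} (hK : 0 ≤ K) (hgr : ∀ z, ‖F z‖ ≤ Real.exp (K * (1 + ‖z‖) ^ (3 / 2 : ℝ)))
    {ρ : ℝ} (hρ : 0 < ρ) :
    ∃ (P : ℂ[X]) (c : ℝ), (∀ w, P.eval w = 0 → w.im = 0) ∧ ∀ z, ‖z‖ < ρ / 2 →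
      ∃ e : ℂ, ‖e‖ ≤ 16 * (K * (1 + 4 * ρ) ^ (3 / 2 : ℝ) + 1) * (‖z‖ / ρ) ^ 2 ∧
        F z = P.eval z * cexp (c * z + e) := by
  classical
  have hne : ∃ z, F z ≠ 0 := ⟨0, by rw [h0]; exact one_ne_zero⟩
  set S : Finset ℂ := (Pool.Agent.NH98.RT.Had.finite_zeros hF hne ρ).toFinset with hS
  have hmem : ∀ z, z ∈ S ↔ (z ∈ closedBall (0 : ℂ) ρ ∧ F z = 0) := by
    intro z
    rw [hS, Set.Finite.mem_toFinset]
    rfl
  have hS0 : (0 : ℂ) ∉ S := fun h => by
    have := ((hmem 0).1 h).2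
    rw [h0] at this
    exact one_ne_zero this
  obtain ⟨g, hg, hgS, hFg⟩ := Pool.Agent.NH98.RT.Had.exists_div_prod hF hne S hS0
  set m : ℂ → ℕ := fun a => analyticOrderNatAt F a with hm
  have hFP : ∀ z, F z = (PP S m).eval z * g z := by
    intro z
    rw [PP_eval, hFg z]
  have hSim : ∀ a ∈ S, a.im = 0 := fun a ha => hz a ((hmem a).1 ha).2
  have hSn : ∀ a ∈ S, a ≠ 0 := fun a ha h => hS0 (h ▸ ha)
  have hg1 : g 0 = 1 := by
    have := hFP 0
    rw [PP_eval, h0] at this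
    simpa using this.symm
  -- no zeros in the ball
  have hgne : ∀ z ∈ ball (0 : ℂ) ρ, g z ≠ 0 := by
    intro z hzb h
    have h2 : F z = 0 := by rw [hFP z, h, mul_zero]
    exact hgS z ((hmem z).2 ⟨ball_subset_closedBall hzb, h2⟩) h
  -- growth
  have hbound : ∀ z ∈ ball (0 : ℂ) ρ, ‖g z‖ ≤ Real.exp (K * (1 + 4 * ρ) ^ (3 / 2 : ℝ) + 1) := by
    intro z hzb
    have key : ‖g z‖ ≤ Real.exp (K * (1 + 4 * ρ) ^ (3 / 2 : ℝ)) := by
      apply Complex.norm_le_of_forall_mem_frontier_norm_le (U := ball (0 : ℂ) (4 * ρ))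
        isBounded_ball hg.diffContOnCl
      · intro w hw
        rw [frontier_ball _ (by positivity), mem_sphere_zero_iff_norm] at hw
        have h1 : 1 ≤ ‖(PP S m).eval w‖ := by
          rw [PP_eval, norm_prod]
          have : ∀ a ∈ S, 1 ≤ ‖(1 - w / a) ^ m a‖ := fun a ha =>
            Pool.Agent.NH98.RT.Had.factor_ge (hSn a ha)
              (mem_closedBall_zero_iff.1 ((hmem a).1 ha).1) hw _
          calc (1 : ℝ) = ∏ a ∈ S, (1 : ℝ) := by simp
            _ ≤ ∏ a ∈ S, ‖(1 - w / a) ^ m a‖ := Finset.prod_le_prod (fun _ _ => zero_le_one) this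
        have h2 := hgr w
        rw [hFP w, norm_mul, hw] at h2
        calc ‖g w‖ ≤ ‖(PP S m).eval w‖ * ‖g w‖ := le_mul_of_one_le_left (norm_nonneg _) h1
          _ ≤ _ := h2
      · rw [closure_ball _ (by positivity), mem_closedBall_zero_iff]
        rw [mem_ball_zero_iff] at hzb
        linarith
    exact key.trans (Real.exp_le_exp.2 (by linarith))
  -- the derivative at zero is real
  have hcr : (starRingEnd ℂ) (deriv g 0) = deriv g 0 := by
    have hPsym : ∀ z, (PP S m).eval ((starRingEnd ℂ) z) = (starRingEnd ℂ) ((PP S m).eval z) := by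
      intro z
      rw [PP_eval, PP_eval, map_prod]
      refine Finset.prod_congr rfl fun a ha => ?_
      have : (starRingEnd ℂ) a = a := Complex.conj_eq_iff_im.2 (hSim a ha)
      rw [map_pow, map_sub, map_one, map_div₀, this]
    have hP0 : (PP S m).eval 0 ≠ 0 := by
      rw [PP_eval]
      simp
    have hev : (fun z => (starRingEnd ℂ) (g ((starRingEnd ℂ) z))) =ᶠ[𝓝 0] g := by
      have hc : ∀ᶠ z in 𝓝 (0 : ℂ), (PP S m).eval z ≠ 0 :=
        (PP S m).continuous.continuousAt.eventually_ne hP0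
      filter_upwards [hc] with z hzP
      have h1 := hFP z
      have h2 := hFP ((starRingEnd ℂ) z)
      rw [hsym, hPsym, h1] at h2
      have h3 := congrArg (starRingEnd ℂ) h2
      rw [map_mul, map_mul, map_mul, Complex.conj_conj, Complex.conj_conj] at h3
      exact (mul_left_cancel₀ hzP h3).symm
    have hd0 : HasDerivAt (fun z => (starRingEnd ℂ) (g ((starRingEnd ℂ) z)))
        ((starRingEnd ℂ) (deriv g 0)) 0 := by
      have h1 : HasDerivAt g (deriv g 0) ((starRingEnd ℂ) 0) := by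
        rw [map_zero]
        exact (hg 0).hasDerivAt
      have h2 := h1.conj_conj
      rw [Complex.conj_conj] at h2
      exact h2
    have h4 : HasDerivAt g ((starRingEnd ℂ) (deriv g 0)) 0 := hd0.congr_of_eventuallyEq hev.symm
    exact h4.deriv.symm
  refine ⟨PP S m, (deriv g 0).re, PP_root S m hSim, fun z hzρ => ?_⟩
  have hM : 0 < K * (1 + 4 * ρ) ^ (3 / 2 : ℝ) + 1 := by positivity
  obtain ⟨e, he, hge⟩ := log_second hρ hM hg hg1 hgne hbound z hzρ
  refine ⟨e, he, ?_⟩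
  have hre : (((deriv g 0).re : ℝ) : ℂ) = deriv g 0 := Complex.conj_eq_iff_re.1 hcr
  rw [hFP z, hge, hre]

/-- the constants of `one_radius` are small compared with the square of the radius -/
theorem small_const (K r : ℝ) (hK : 0 ≤ K) :
    Tendsto (fun n : ℕ => 16 * (K * (1 + 4 * ((n : ℝ) + 1)) ^ (3 / 2 : ℝ) + 1) *
      (r / ((n : ℝ) + 1)) ^ 2) atTop (𝓝 0) := by
  have h1 : Tendsto (fun n : ℕ => ((n : ℝ) + 1)) atTop atTop :=
    tendsto_natCast_atTop_atTop.atTop_add tendsto_const_nhds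
  have hA : Tendsto (fun n : ℕ => 16 * K * 5 ^ (3 / 2 : ℝ) * r ^ 2 * ((n : ℝ) + 1) ^ (-(1 / 2 : ℝ)) +
      16 * r ^ 2 * (((n : ℝ) + 1) ^ 2)⁻¹) atTop (𝓝 (16 * K * 5 ^ (3 / 2 : ℝ) * r ^ 2 * 0 +
      16 * r ^ 2 * 0)) := by
    refine Tendsto.add (Tendsto.const_mul _ ?_) (Tendsto.const_mul _ ?_)
    · exact (tendsto_rpow_neg_atTop (by norm_num)).comp h1
    · exact tendsto_inv_atTop_zero.comp ((tendsto_pow_atTop (by norm_num)).comp h1)
  rw [mul_zero, mul_zero, add_zero] at hA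
  refine squeeze_zero (fun n => by positivity) (fun n => ?_) hA
  have hn : (0 : ℝ) < (n : ℝ) + 1 := by positivity
  have h5 : (1 + 4 * ((n : ℝ) + 1)) ^ (3 / 2 : ℝ) ≤ 5 ^ (3 / 2 : ℝ) * ((n : ℝ) + 1) ^ (3 / 2 : ℝ) := by
    rw [← Real.mul_rpow (by norm_num) hn.le]
    exact Real.rpow_le_rpow (by positivity) (by linarith [Nat.cast_nonneg (α := ℝ) n]) (by norm_num)
  have h6 : ((n : ℝ) + 1) ^ (3 / 2 : ℝ) = ((n : ℝ) + 1) ^ (-(1 / 2 : ℝ)) * ((n : ℝ) + 1) ^ 2 := by
    rw [← Real.rpow_natCast, ← Real.rpow_add hn]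
    norm_num
  calc 16 * (K * (1 + 4 * ((n : ℝ) + 1)) ^ (3 / 2 : ℝ) + 1) * (r / ((n : ℝ) + 1)) ^ 2
      ≤ 16 * (K * (5 ^ (3 / 2 : ℝ) * ((n : ℝ) + 1) ^ (3 / 2 : ℝ)) + 1) *
        (r / ((n : ℝ) + 1)) ^ 2 := by gcongr
    _ = 16 * K * 5 ^ (3 / 2 : ℝ) * r ^ 2 * ((n : ℝ) + 1) ^ (-(1 / 2 : ℝ)) +
      16 * r ^ 2 * (((n : ℝ) + 1) ^ 2)⁻¹ := by
        rw [h6]
        field_simp

/-- **Approximation.** -/
theorem exists_polys (F : ℂ → ℂ) (hF : Differentiable ℂ F) (h0 : F 0 = 1)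
    (hsym : ∀ z, F ((starRingEnd ℂ) z) = (starRingEnd ℂ) (F z)) (hz : ∀ z, F z = 0 → z.im = 0)
    {K : ℝ} (hK : 0 ≤ K) (hgr : ∀ z, ‖F z‖ ≤ Real.exp (K * (1 + ‖z‖) ^ (3 / 2 : ℝ))) :
    ∃ Q : ℕ → ℂ[X], (∀ N w, (Q N).IsRoot w → w.im = 0) ∧
      TendstoLocallyUniformly (fun (N : ℕ) (w : ℂ) => (Q N).eval w) F atTop := by
  have H : ∀ n : ℕ, ∃ (P : ℂ[X]) (c : ℝ), (∀ w, P.eval w = 0 → w.im = 0) ∧
      ∀ z, ‖z‖ < ((n : ℝ) + 1) / 2 →
      ∃ e : ℂ, ‖e‖ ≤ 16 * (K * (1 + 4 * ((n : ℝ) + 1)) ^ (3 / 2 : ℝ) + 1) *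
        (‖z‖ / ((n : ℝ) + 1)) ^ 2 ∧ F z = P.eval z * cexp (c * z + e) :=
    fun n => one_radius hF h0 hsym hz hK hgr (by positivity)
  choose P c hPr hPe using H
  -- the choice of the powers
  have HN : ∀ n : ℕ, ∃ N : ℕ, 0 < N ∧ ∀ z : ℂ, ‖z‖ ≤ n →
      ‖(P n).eval z * (1 + (c n : ℂ) * z / N) ^ N - (P n).eval z * cexp (c n * z)‖ ≤
        1 / ((n : ℝ) + 1) := by
    intro n
    obtain ⟨B, hB⟩ := (isCompact_closedBall (0 : ℂ) n).exists_bound_of_continuousOn
      (f := fun z => (P n).eval z) (P n).continuous.continuousOn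
    have hB0 : 0 ≤ B := (norm_nonneg _).trans (hB 0 (mem_closedBall_self (Nat.cast_nonneg n)))
    set A : ℝ := |c n| * n with hA
    have hA0 : 0 ≤ A := by positivity
    obtain ⟨N, hN⟩ := exists_nat_ge (max (A + 1) (B * (Real.exp A * A ^ 2) * ((n : ℝ) + 1)))
    have hN1 : A + 1 ≤ N := le_trans (le_max_left _ _) hN
    have hN2 : B * (Real.exp A * A ^ 2) * ((n : ℝ) + 1) ≤ N := le_trans (le_max_right _ _) hN
    have hN0 : (0 : ℝ) < N := by linarith
    have hN0' : 0 < N := by exact_mod_cast hN0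
    refine ⟨N, hN0', fun z hz => ?_⟩
    have hw : ‖(c n : ℂ) * z‖ ≤ A := by
      rw [norm_mul, Complex.norm_real, Real.norm_eq_abs]
      exact mul_le_mul_of_nonneg_left hz (abs_nonneg _)
    have h1 := exp_approx ((c n : ℂ) * z) N (by linarith) hN0'
    rw [← mul_sub, norm_mul]
    have h2 := hB z (mem_closedBall_zero_iff.2 hz)
    calc ‖(P n).eval z‖ * ‖(1 + (c n : ℂ) * z / N) ^ N - cexp (c n * z)‖
        ≤ B * (Real.exp ‖(c n : ℂ) * z‖ * ‖(c n : ℂ) * z‖ ^ 2 / N) := by gcongr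
      _ ≤ B * (Real.exp A * A ^ 2 / N) := by gcongr
      _ ≤ 1 / ((n : ℝ) + 1) := by
          rw [← mul_div_assoc, div_le_div_iff₀ hN0 (by positivity)]
          linarith
  choose N hN0 hN using HN
  refine ⟨fun n => P n * (1 + C ((c n : ℂ) / N n) * X) ^ N n, ?_, ?_⟩
  · intro n w hw
    rw [IsRoot.def, eval_mul, mul_eq_zero] at hw
    rcases hw with hw | hw
    · exact hPr n w hw
    · rw [eval_pow] at hw
      have h2 := (pow_eq_zero_iff (hN0 n).ne').1 hw
      simp only [eval_add, eval_one, eval_mul, eval_C, eval_X] at h2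
      have h3 : (((c n / N n : ℝ) : ℂ)) * w = -1 := by
        push_cast
        linear_combination h2
      have h4 := congrArg Complex.im h3
      rw [Complex.im_ofReal_mul] at h4
      simp only [Complex.neg_im, Complex.one_im, neg_zero, mul_eq_zero] at h4
      rcases h4 with h4 | h4
      · exfalso
        rw [h4] at h3
        simp at h3
      · exact h4
  · rw [Metric.tendstoLocallyUniformly_iff]
    intro ε hε x
    set r : ℝ := ‖x‖ + 1 with hr
    have hr0 : 0 < r := by positivity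
    obtain ⟨B, hB⟩ := (isCompact_closedBall (0 : ℂ) r).exists_bound_of_continuousOn
      (f := F) hF.continuous.continuousOn
    have hB0 : 0 ≤ B := (norm_nonneg _).trans (hB 0 (mem_closedBall_self hr0.le))
    refine ⟨ball x 1, ball_mem_nhds x one_pos, ?_⟩
    have hδ := small_const K r hK
    set δ : ℕ → ℝ := fun n => 16 * (K * (1 + 4 * ((n : ℝ) + 1)) ^ (3 / 2 : ℝ) + 1) *
      (r / ((n : ℝ) + 1)) ^ 2 with hδdef
    have hlim : Tendsto (fun n : ℕ => B * Real.exp (δ n) * (Real.exp (δ n) - 1) +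
        1 / ((n : ℝ) + 1)) atTop (𝓝 (B * Real.exp 0 * (Real.exp 0 - 1) + 0)) := by
      refine Tendsto.add (Tendsto.mul (Tendsto.const_mul _ ?_) (Tendsto.sub_const ?_ _))
        tendsto_one_div_add_atTop_nhds_zero_nat
      · exact (Real.continuous_exp.tendsto 0).comp hδ
      · exact (Real.continuous_exp.tendsto 0).comp hδ
    simp only [Real.exp_zero, sub_self, mul_zero, add_zero] at hlim
    have hev := hlim.eventually (gt_mem_nhds hε)
    have hbig : ∀ᶠ n : ℕ in atTop, 2 * r < (n : ℝ) :=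
      tendsto_natCast_atTop_atTop.eventually (eventually_gt_atTop _)
    filter_upwards [hev, hbig] with n hn1 hn2 y hy
    have hyr : ‖y‖ ≤ r := by
      rw [mem_ball, dist_eq_norm] at hy
      have : ‖y‖ ≤ ‖y - x‖ + ‖x‖ := by
        have := norm_add_le (y - x) x
        rwa [sub_add_cancel] at this
      linarith
    have hn0 : (0 : ℝ) < (n : ℝ) + 1 := by positivity
    obtain ⟨e, he, hFe⟩ := hPe n y (by linarith)
    have he' : ‖e‖ ≤ δ n := by
      refine he.trans ?_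
      simp only [hδdef]
      gcongr
    have hNy := hN n y (by linarith)
    have hPc : (P n).eval y * cexp (c n * y) = F y * cexp (-e) := by
      rw [hFe, mul_assoc, ← Complex.exp_add]
      congr 2
      ring
    have hFy := hB y (mem_closedBall_zero_iff.2 hyr)
    have h1 : ‖F y - (P n).eval y * cexp (c n * y)‖ ≤ B * Real.exp (δ n) * (Real.exp (δ n) - 1) := by
      rw [hPc]
      have h2 : F y - F y * cexp (-e) = F y * cexp (-e) * (cexp e - 1) := by
        rw [mul_sub, mul_assoc, ← Complex.exp_add]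
        simp
      rw [h2, norm_mul, norm_mul]
      have h3 : ‖cexp (-e)‖ ≤ Real.exp (δ n) := by
        refine (Complex.norm_exp_le_exp_norm _).trans (Real.exp_le_exp.2 ?_)
        rw [norm_neg]
        exact he'
      have h4 : ‖cexp e - 1‖ ≤ Real.exp (δ n) - 1 := by
        have h5 : ‖cexp e - 1‖ ≤ Real.exp ‖e‖ - 1 := by
          have := Complex.norm_exp_sub_sum_le_exp_norm_sub_sum e 1
          simpa using this
        have := Real.exp_le_exp.2 he'
        linarith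
      gcongr
    have h2 : (P n * (1 + C ((c n : ℂ) / N n) * X) ^ N n).eval y =
        (P n).eval y * (1 + (c n : ℂ) * y / N n) ^ N n := by
      simp only [eval_mul, eval_pow, eval_add, eval_one, eval_C, eval_X]
      congr 3
      ring
    rw [dist_eq_norm, h2]
    calc ‖F y - (P n).eval y * (1 + (c n : ℂ) * y / N n) ^ N n‖
        = ‖(F y - (P n).eval y * cexp (c n * y)) - ((P n).eval y * (1 + (c n : ℂ) * y / N n) ^ N n
          - (P n).eval y * cexp (c n * y))‖ := by congr 1; ring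
      _ ≤ ‖F y - (P n).eval y * cexp (c n * y)‖ + ‖(P n).eval y * (1 + (c n : ℂ) * y / N n) ^ N n
          - (P n).eval y * cexp (c n * y)‖ := norm_sub_le _ _
      _ ≤ B * Real.exp (δ n) * (Real.exp (δ n) - 1) + 1 / ((n : ℝ) + 1) := add_le_add h1 hNy
      _ < ε := hn1

end Pool.Agent.H260.CH
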